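import Pool.Agent.Q158.Jump

/-!
# MP_b5825f_co: jump-critical posets of length greater than one

The prime example has seven elements `0, …, 6` with `0 < 2, 3, 4`, `1 < 3, 5`, `2 < 5, 6`,
`3 < 6`, `4 < 6` and jump number three. Long ones are ordinal sums of two-element antichains.
-/

namespace Pool.Agent.Results.MP_b5825f_co.LongCritical

open Q158.Jump

/-- There is a jump-critical finite poset without nontrivial autonomous sets that contains a
three-element chain; and for every `n` there is a jump-critical finite poset that contains a
chain with `n` elements. -/
theorem result :
    (∃ (α : Type) (_ : PartialOrder α) (_ : Finite α), JumpCritical α ∧ IsPrime α ∧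
      ∃ x y z : α, x < y ∧ y < z) ∧
    ∀ n : ℕ, ∃ (α : Type) (_ : PartialOrder α) (_ : Finite α), JumpCritical α ∧
      ∃ c : Fin n → α, StrictMono c :=
  result_aux

end Pool.Agent.Results.MP_b5825f_co.LongCritical
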